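import Pool.Agent.Helper89.FI.Full2
import Pool.Agent.Helper89.FI.Coeff

/-!
# The Fröberg–Iarrobino conjecture on generic power ideals fails for `(n, r, d) = (5, 9, 17)`

No ideal generated by the seventeenth powers of nine linear forms in five variables has the
expected Hilbert series: the coefficient of `t ^ 38` is at least `601`, the expected one is `600`.
-/

namespace Pool.Agent.Results.MP_9e2f2c_ag.Full

open MvPolynomial

/-- The Hilbert function `HF_{S/I}(i) = dim (S/I)_i`, where `S = ℂ[x_1, …, x_n]` and `(S/I)_i` is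
the image in `S/I` of the space of forms of degree `i`. -/
noncomputable def HF {n : ℕ} (I : Ideal (MvPolynomial (Fin n) ℂ)) (i : ℕ) : ℕ :=
  Module.finrank ℂ
    ((homogeneousSubmodule (Fin n) ℂ i).map (Ideal.Quotient.mkₐ ℂ I).toLinearMap)

/-- The ideal `(ℓ_1^d, …, ℓ_r^d)`. -/
noncomputable def powerIdeal {n r : ℕ} (ℓ : Fin r → MvPolynomial (Fin n) ℂ) (d : ℕ) :
    Ideal (MvPolynomial (Fin n) ℂ) :=
  Ideal.span (Set.range fun k => ℓ k ^ d)

/-- The Hilbert series `∑ HF_{S/I}(i) t^i`. -/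
noncomputable def hilbertSeries {n : ℕ} (I : Ideal (MvPolynomial (Fin n) ℂ)) : PowerSeries ℤ :=
  PowerSeries.mk fun i => (HF I i : ℤ)

open Classical in
/-- `|∑ a_i t^i|`: truncation at the first non-positive coefficient. -/
noncomputable def trunc (a : PowerSeries ℤ) : PowerSeries ℤ :=
  PowerSeries.mk fun i =>
    if ∀ j ≤ i, 0 < PowerSeries.coeff j a then PowerSeries.coeff i a else 0

/-- The expected series `|(1 - t^d)^r / (1 - t)^n|`, with `1 / (1 - t) = ∑ t^i`. -/
noncomputable def expectedSeries (n r d : ℕ) : PowerSeries ℤ :=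
  trunc ((1 - PowerSeries.X ^ d) ^ r * (PowerSeries.mk fun _ => (1 : ℤ)) ^ n)

/-- The `r` linear forms in `n` variables with the coefficients `a`. -/
noncomputable def forms {n r : ℕ} (a : Fin r → Fin n → ℂ) (k : Fin r) :
    MvPolynomial (Fin n) ℂ :=
  ∑ i, C (a k i) * X i

/-- `(n, r, d)` is expected: off a proper hypersurface of the space of `r` linear forms, the
Hilbert series of `S/(ℓ_1^d, …, ℓ_r^d)` is the expected series. -/
def Expected (n r d : ℕ) : Prop :=
  ∃ P : MvPolynomial (Fin r × Fin n) ℂ, P ≠ 0 ∧ ∀ a : Fin r → Fin n → ℂ,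
    eval (fun p : Fin r × Fin n => a p.1 p.2) P ≠ 0 →
      hilbertSeries (powerIdeal (forms a) d) = expectedSeries n r d

section aux

open Pool.Agent.Helper89.FI Module

theorem mk1 : (PowerSeries.mk fun _ => (1 : ℤ)) = PowerSeries.mk 1 := rfl

theorem coeff_raw (m : ℕ) : PowerSeries.coeff m
    ((1 - PowerSeries.X ^ 17) ^ 9 * (PowerSeries.mk fun _ => (1 : ℤ)) ^ 5) = cc 9 m := by
  have h1 : ((1 : PowerSeries ℤ) - PowerSeries.X ^ 17) ^ 9 =
      ∑ i ∈ Finset.range (9 + 1), PowerSeries.C ((-1 : ℤ) ^ i * (Nat.choose 9 i : ℤ)) *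
        PowerSeries.X ^ (17 * i) := by
    have e : (1 : PowerSeries ℤ) - PowerSeries.X ^ 17 = -PowerSeries.X ^ 17 + 1 := by ring
    rw [e, add_pow]
    refine Finset.sum_congr rfl fun i _ => ?_
    rw [one_pow, mul_one, neg_pow, ← pow_mul, map_mul, map_pow, map_neg, map_one, map_natCast]
    ring
  rw [h1, mk1, PowerSeries.mk_one_pow_eq_mk_choose_add (S := ℤ) (d := 4), Finset.sum_mul, map_sum]
  unfold cc
  refine Finset.sum_congr rfl fun i _ => ?_
  rw [mul_assoc, PowerSeries.coeff_C_mul, PowerSeries.coeff_X_pow_mul']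
  split_ifs with h
  · rw [PowerSeries.coeff_mk, show m - 17 * i + 5 - 1 = 4 + (m - 17 * i) by omega]
  · rw [mul_zero]

theorem coeff_expected : PowerSeries.coeff 38 (expectedSeries 5 9 17) = 600 := by
  unfold expectedSeries trunc
  rw [PowerSeries.coeff_mk, if_pos]
  · rw [coeff_raw, cc9_38]
  · intro j hj
    rw [coeff_raw]
    exact cc9_pos j hj

theorem HF_add {n : ℕ} (I : Ideal (MvPolynomial (Fin n) ℂ)) (i : ℕ) :
    HF I i + finrank ℂ (gr I i) = finrank ℂ (homogeneousSubmodule (Fin n) ℂ i) := by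
  have h := LinearMap.finrank_range_add_finrank_ker
    ((Ideal.Quotient.mkₐ ℂ I).toLinearMap.domRestrict (homogeneousSubmodule (Fin n) ℂ i))
  rw [LinearMap.range_domRestrict] at h
  have hk : finrank ℂ (LinearMap.ker
      ((Ideal.Quotient.mkₐ ℂ I).toLinearMap.domRestrict (homogeneousSubmodule (Fin n) ℂ i))) =
      finrank ℂ (gr I i) := by
    have e1 : gr I i = Submodule.map (homogeneousSubmodule (Fin n) ℂ i).subtype (LinearMap.ker
      ((Ideal.Quotient.mkₐ ℂ I).toLinearMap.domRestrict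
        (homogeneousSubmodule (Fin n) ℂ i))) := by
      ext x
      rw [mem_gr, Submodule.mem_map]
      constructor
      · rintro ⟨hx, hx'⟩
        refine ⟨⟨x, hx'⟩, ?_, rfl⟩
        rw [LinearMap.mem_ker, LinearMap.domRestrict_apply]
        exact Ideal.Quotient.eq_zero_iff_mem.2 hx
      · rintro ⟨⟨y, hy'⟩, hy, rfl⟩
        rw [LinearMap.mem_ker, LinearMap.domRestrict_apply] at hy
        exact ⟨Ideal.Quotient.eq_zero_iff_mem.1 hy, hy'⟩
    rw [e1]
    exact (Submodule.finrank_map_subtype_eq _ _).symm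
  rw [hk] at h
  exact h

theorem exists_coeffs {n : ℕ} {f : MvPolynomial (Fin n) ℂ} (hf : f.IsHomogeneous 1) :
    ∃ v : Fin n → ℂ, f = lin v := by
  have h1 : f ∈ homogeneousSubmodule (Fin n) ℂ 1 := hf
  rw [homogeneousSubmodule_one_eq_span_X, Submodule.mem_span_range_iff_exists_fun] at h1
  obtain ⟨c, hc⟩ := h1
  refine ⟨c, ?_⟩
  rw [← hc]
  exact Finset.sum_congr rfl fun i _ => smul_eq_C_mul _ _

theorem bound (ℓ : Fin 9 → MvPolynomial (Fin 5) ℂ) (hℓ : ∀ k, (ℓ k).IsHomogeneous 1) :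
    601 ≤ HF (powerIdeal ℓ 17) 38 := by
  choose a ha using fun k => exists_coeffs (hℓ k)
  have e : powerIdeal ℓ 17 = pI 9 17 a := by
    unfold powerIdeal pI
    simp only [ha]
  have h1 := HF_add (powerIdeal ℓ 17) 38
  rw [finrank_S38, e] at h1
  have h2 := bound_all a
  rw [e]
  omega

end aux

/-- For every choice of nine linear forms in five variables over `ℂ` the Hilbert function of the
ideal of their seventeenth powers is at least `601` in degree `38`, where the expected series has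
the coefficient `600`. So no such ideal has the expected series, and the conjecture that all
`(n, r, d)` with `r ≠ n + 2, n + 3` and `(n, r)` off the four listed pairs are expected is
false. -/
theorem result :
    (∀ ℓ : Fin 9 → MvPolynomial (Fin 5) ℂ, (∀ k, (ℓ k).IsHomogeneous 1) →
      601 ≤ HF (powerIdeal ℓ 17) 38 ∧
        PowerSeries.coeff 38 (expectedSeries 5 9 17) = 600 ∧
        hilbertSeries (powerIdeal ℓ 17) ≠ expectedSeries 5 9 17) ∧
    ¬ ∀ n r d : ℕ, 1 ≤ n → 1 ≤ r → 1 ≤ d → r ≠ n + 2 → r ≠ n + 3 →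
      (n, r) ∉ ({(3, 7), (3, 8), (4, 9), (5, 14)} : Finset (ℕ × ℕ)) → Expected n r d := by
  have key : ∀ ℓ : Fin 9 → MvPolynomial (Fin 5) ℂ, (∀ k, (ℓ k).IsHomogeneous 1) →
      601 ≤ HF (powerIdeal ℓ 17) 38 ∧
        PowerSeries.coeff 38 (expectedSeries 5 9 17) = 600 ∧
        hilbertSeries (powerIdeal ℓ 17) ≠ expectedSeries 5 9 17 := by
    intro ℓ hℓ
    have h1 := bound ℓ hℓ
    refine ⟨h1, coeff_expected, fun h => ?_⟩
    have h2 := congrArg (PowerSeries.coeff 38) h
    rw [coeff_expected, hilbertSeries, PowerSeries.coeff_mk] at h2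
    have h3 : HF (powerIdeal ℓ 17) 38 = 600 := by exact_mod_cast h2
    omega
  refine ⟨key, fun H => ?_⟩
  obtain ⟨P, hP, h⟩ := H 5 9 17 (by norm_num) (by norm_num) (by norm_num) (by norm_num)
    (by norm_num) (by decide)
  obtain ⟨x, hx⟩ := Pool.Agent.Helper89.FI.exists_eval_ne P hP
  exact (key (forms fun k i => x (k, i)) fun k =>
    Pool.Agent.Helper89.FI.lin_mem _).2.2 (h (fun k i => x (k, i)) hx)

end Pool.Agent.Results.MP_9e2f2c_ag.Full
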